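import Pool.Agent.Y549.QS.Stm

set_option autoImplicit false

/-! The exceptional set of the quantitative Schanuel bound: assembly. -/

namespace Pool.Agent.Y549.QS.Asm

open MvPolynomial MeasureTheory Set Pool.Agent.H334R2 Pool.Agent.Y549.QS

/-- the quantitative Schanuel bound holds at `x` -/
def Good (n : ℕ) (x : Fin n → ℝ) : Prop :=
  ∃ c D₀ : ℝ, 0 < c ∧ 0 < D₀ ∧ ∀ D : ℕ, D₀ ≤ D → ∀ μ : ℝ, (D : ℝ) ≤ μ →
    ∀ α β : Fin n → ℂ, (∀ i, IsAlgebraic ℚ (α i)) → (∀ i, IsAlgebraic ℚ (β i)) →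
      Module.finrank ℚ (IntermediateField.adjoin ℚ (Set.range α ∪ Set.range β)) ≤ D →
      (∀ i, Module.finrank ℚ (IntermediateField.adjoin ℚ (Set.range α ∪ Set.range β)) *
        absLogHeight (α i) ≤ μ) →
      (∀ i, Module.finrank ℚ (IntermediateField.adjoin ℚ (Set.range α ∪ Set.range β)) *
        absLogHeight (β i) ≤ μ) →
      ∃ i, Real.exp (-(c * (D : ℝ) ^ ((1 : ℝ) / (2 * n)) * μ)) ≤
        max ‖(x i : ℂ) - β i‖ ‖Complex.exp (x i) - α i‖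

/-- the conclusion of MEM for one constant -/
def Mem (m : ℕ) (C : ℝ) : Prop := ∀ (R : ℕ) (c1 : ℝ) (_ : cOne m C (R + 1 : ℕ) ≤ c1)
    (x : Fin (m + 1) → ℝ)
    (_ : ∀ i, |x i| ≤ (R + 1 : ℕ)) (c2 : ℝ)
    (_ : c1 + (6 * (m + 1) + 2 * (m + 1) * (R + 1 : ℕ) + C) ≤ c2)
    (α β : Fin (m + 1) → ℂ) (_ : ∀ i, IsAlgebraic ℚ (α i)) (_ : ∀ i, IsAlgebraic ℚ (β i))
    (d M : ℕ) (_ : d = Module.finrank ℚ (IntermediateField.adjoin ℚ (Set.range α ∪ Set.range β)))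
    (_ : d ≤ M) (_ : ∀ i, d * absLogHeight (α i) ≤ M) (_ : ∀ i, d * absLogHeight (β i) ≤ M)
    (_ : ∀ i, ‖(x i : ℂ) - β i‖ ≤ Real.exp (-(c2 * (M * deltaS (m + 1) d))))
    (_ : ∀ i, ‖Complex.exp (x i) - α i‖ < Real.exp (-(c2 * (M * deltaS (m + 1) d)))),
    x ∈ badC m C c1 R (d - 1, M - d)

lemma cOne_pos (m : ℕ) {C R : ℝ} (hC : 0 < C) (hR : 0 ≤ R) : 0 < cOne m C R := by
  rw [cOne]; positivity

lemma good_of_finite {m : ℕ} {C : ℝ} (hC : 0 < C) (hbad : Mem m C) (R : ℕ) (c1 : ℝ)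
    (hc1 : cOne m C (R + 1 : ℕ) ≤ c1) (x : Fin (m + 1) → ℝ) (hR : ∀ i, |x i| ≤ (R + 1 : ℕ))
    (hfin : {p : ℕ × ℕ | x ∈ badC m C c1 R p}.Finite) : Good (m + 1) x := by
  have hc10 : 0 < c1 := (cOne_pos m hC (by positivity)).trans_le hc1
  set c2 : ℝ := c1 + (6 * (m + 1) + 2 * (m + 1) * (R + 1 : ℕ) + C) with hc2
  have hc2pos : 0 < c2 := by
    rw [hc2]; positivity
  refine ⟨6 * c2, (∑ p ∈ hfin.toFinset, (p.1 + 1 + p.2) : ℕ) + 1, by positivity, by positivity, ?_⟩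
  intro D hD μ hμ α β hα hβ hdD hhα hhβ
  by_contra hcon
  push Not at hcon
  set d := Module.finrank ℚ (IntermediateField.adjoin ℚ (Set.range α ∪ Set.range β)) with hd
  have hD1 : (1 : ℝ) ≤ D := by
    refine le_trans ?_ hD
    have : (0 : ℝ) ≤ ((∑ p ∈ hfin.toFinset, (p.1 + 1 + p.2) : ℕ) : ℝ) := by positivity
    linarith
  have hμ1 : 1 ≤ μ := hD1.trans hμ
  have hd1 : 1 ≤ d := by
    have hfin : FiniteDimensional ℚ (IntermediateField.adjoin ℚ (Set.range α ∪ Set.range β)) := by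
      apply IntermediateField.finiteDimensional_adjoin
      rintro z (⟨i, rfl⟩ | ⟨i, rfl⟩)
      · exact (hα i).isIntegral
      · exact (hβ i).isIntegral
    rw [hd]
    exact Module.finrank_pos
  set M : ℕ := ⌈μ⌉₊ with hM
  have hμM : μ ≤ M := Nat.le_ceil _
  have hM2 : (M : ℝ) ≤ 2 * μ := by
    have := (Nat.ceil_lt_add_one (show 0 ≤ μ by linarith)).le
    linarith
  have hdM : d ≤ M := by
    have h1 : (d : ℝ) ≤ D := by exact_mod_cast hdD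
    exact_mod_cast (h1.trans hμ).trans hμM
  have hδ : (deltaS (m + 1) d : ℝ) ≤ 3 * (D : ℝ) ^ ((1 : ℝ) / (2 * ((m + 1 : ℕ) : ℝ))) := by
    refine (deltaS_le (by omega) hd1).trans ?_
    refine mul_le_mul_of_nonneg_left ?_ (by norm_num)
    exact Real.rpow_le_rpow (by positivity) (by exact_mod_cast hdD) (by positivity)
  have hexp : Real.exp (-(6 * c2 * (D : ℝ) ^ ((1 : ℝ) / (2 * ((m + 1 : ℕ) : ℝ))) * μ)) ≤
      Real.exp (-(c2 * (M * deltaS (m + 1) d))) := by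
    refine Real.exp_le_exp.mpr ?_
    have h1 : (M : ℝ) * deltaS (m + 1) d ≤
        (2 * μ) * (3 * (D : ℝ) ^ ((1 : ℝ) / (2 * ((m + 1 : ℕ) : ℝ)))) :=
      mul_le_mul hM2 hδ (by positivity) (by positivity)
    have h2 := mul_le_mul_of_nonneg_left h1 hc2pos.le
    linarith
  have hmem := hbad R c1 hc1 x hR c2 le_rfl α β hα hβ d M hd hdM
    (fun i => (hhα i).trans hμM) (fun i => (hhβ i).trans hμM)
    (fun i => ((le_max_left _ _).trans_lt (hcon i)).le.trans hexp)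
    (fun i => ((le_max_right _ _).trans_lt (hcon i)).trans_le hexp)
  have hmem' : (d - 1, M - d) ∈ hfin.toFinset := by
    rw [Set.Finite.mem_toFinset]; exact hmem
  have h1 : (d - 1) + 1 + (M - d) ≤ ∑ p ∈ hfin.toFinset, (p.1 + 1 + p.2) :=
    Finset.single_le_sum (f := fun p : ℕ × ℕ => p.1 + 1 + p.2) (fun _ _ => Nat.zero_le _) hmem'
  have h2 : M ≤ ∑ p ∈ hfin.toFinset, (p.1 + 1 + p.2) := by omega
  have h3 : (M : ℝ) ≤ ((∑ p ∈ hfin.toFinset, (p.1 + 1 + p.2) : ℕ) : ℝ) := by exact_mod_cast h2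
  linarith

lemma dim_one (hB : S_BADC) (hN : S_NUMB) (hL : S_LIM) (m : ℕ) {C : ℝ} (hC : 0 < C) (R : ℕ)
    {κ : ℝ} (hκ : 0 < κ) : ∃ c1 : ℝ, cOne m C (R + 1 : ℕ) ≤ c1 ∧
      dimH {x : Fin (m + 1) → ℝ | {p : ℕ × ℕ | x ∈ badC m C c1 R p}.Infinite} ≤
        ENNReal.ofReal (m + κ) := by
  have hR1 : (1 : ℝ) ≤ ((R + 1 : ℕ) : ℝ) := by push_cast; linarith [show (0 : ℝ) ≤ R by positivity]
  obtain ⟨c1, hc1, hnum⟩ := hN m C ((R + 1 : ℕ) : ℝ) κ hC hR1 hκ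
  have hc10 : 0 < c1 := (cOne_pos m hC (by positivity)).trans_le hc1
  refine ⟨c1, hc1, ?_⟩
  obtain ⟨ε, hε⟩ : ∃ ε : ℕ × ℕ → ℝ, ε = fun p =>
    Real.exp (-(c1 * (((p.1 + 1 + p.2 : ℕ) : ℝ) * deltaS (m + 1) (p.1 + 1)))) := ⟨_, rfl⟩
  obtain ⟨η, hη⟩ : ∃ η : ℕ × ℕ → ℝ, η = fun p =>
    Real.exp (-(C * (((p.1 + 1 + p.2 : ℕ) : ℝ) * deltaS (m + 1) (p.1 + 1)))) / 2 := ⟨_, rfl⟩
  have hε0 : ∀ p, 0 < ε p := fun p => by rw [hε]; exact Real.exp_pos _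
  have hη0 : ∀ p, 0 < η p := fun p => by rw [hη]; exact half_pos (Real.exp_pos _)
  have hε1 : ∀ p, ε p ≤ 1 := fun p => by
    rw [hε]
    exact Real.exp_le_one_iff.mpr (by simp only [Left.neg_nonpos_iff]; positivity)
  have hη1 : ∀ p, η p ≤ 1 := fun p => by
    rw [hη]
    have : Real.exp (-(C * (((p.1 + 1 + p.2 : ℕ) : ℝ) * deltaS (m + 1) (p.1 + 1)))) ≤ 1 :=
      Real.exp_le_one_iff.mpr (by simp only [Left.neg_nonpos_iff]; positivity)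
    simp only
    linarith
  have hexp : ∀ p : ℕ × ℕ, Real.exp (-((p.1 + 1 + p.2 : ℕ) : ℝ)) ≤ Real.exp (-(p.1 + p.2 : ℝ)) := by
    intro p
    refine Real.exp_le_exp.mpr ?_
    push_cast
    linarith
  refine hL m (m + κ) (fun p => badC m C c1 R p) (fun p => 16 * ε p / η p) (by positivity) ?_ ?_
  · intro p
    have h1 := hnum (p.1 + 1) (p.1 + 1 + p.2) (by omega) (by omega) _ _ rfl rfl (ε p) (η p)
      (by rw [hε]) (by rw [hη])
    have h2 := hε0 p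
    have h3 := hη0 p
    exact ⟨by positivity, h1.2.1.trans (hexp p)⟩
  · intro p
    have h1 := hnum (p.1 + 1) (p.1 + 1 + p.2) (by omega) (by omega) _ _ rfl rfl (ε p) (η p)
      (by rw [hε]) (by rw [hη])
    obtain ⟨F, hF1, hF2⟩ := hB m (deltaS (m + 1) (p.1 + 1))
      (tT C (p.1 + 1 + p.2) (p.1 + 1) (deltaS (m + 1) (p.1 + 1))) ((R + 1 : ℕ) : ℝ) (ε p) (η p)
      hR1 (hε0 p) (hε1 p) (hη0 p) (hη1 p) h1.1
    refine ⟨F, ?_, ?_⟩
    · have h2 := hε0 p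
      have h3 := hη0 p
      have h4 : (0 : ℝ) ≤ (16 * ε p / η p) ^ ((m : ℝ) + κ) := by positivity
      exact ((mul_le_mul_of_nonneg_right hF1 h4).trans h1.2.2).trans (hexp p)
    · have h5 : badC m C c1 R p = badSet (m + 1) (deltaS (m + 1) (p.1 + 1))
          (tT C (p.1 + 1 + p.2) (p.1 + 1) (deltaS (m + 1) (p.1 + 1))) ((R + 1 : ℕ) : ℝ)
          (ε p) (η p) := by
        rw [badC, hε, hη]
      rw [h5]
      exact hF2

theorem main (hB : S_BADC) (hN : S_NUMB) (hL : S_LIM) (hM : S_MEM) (m : ℕ) :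
    dimH {x : Fin (m + 1) → ℝ | ¬ Good (m + 1) x} ≤ (m : ENNReal) := by
  obtain ⟨C, hC, hbad⟩ := hM m
  have hbad' : Mem m C := hbad
  have h1 : ∀ j : ℕ, dimH {x : Fin (m + 1) → ℝ | ¬ Good (m + 1) x} ≤
      ENNReal.ofReal (m + 1 / ((j : ℝ) + 1)) := by
    intro j
    have h2 : ∀ R : ℕ, ∃ c1 : ℝ, cOne m C (R + 1 : ℕ) ≤ c1 ∧
      dimH {x : Fin (m + 1) → ℝ | {p : ℕ × ℕ | x ∈ badC m C c1 R p}.Infinite} ≤
        ENNReal.ofReal (m + 1 / ((j : ℝ) + 1)) := fun R => dim_one hB hN hL m hC R (by positivity)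
    choose c1 hc1 hdim using h2
    have hsub : {x : Fin (m + 1) → ℝ | ¬ Good (m + 1) x} ⊆
        ⋃ R : ℕ, {x : Fin (m + 1) → ℝ | {p : ℕ × ℕ | x ∈ badC m C (c1 R) R p}.Infinite} := by
      intro x hx
      obtain ⟨R, hR⟩ : ∃ R : ℕ, ∀ i, |x i| ≤ (R + 1 : ℕ) := by
        obtain ⟨R, hR⟩ := exists_nat_ge (∑ i, |x i|)
        refine ⟨R, fun i => ?_⟩
        have h1 : |x i| ≤ ∑ i, |x i| :=
          Finset.single_le_sum (f := fun i => |x i|) (fun _ _ => abs_nonneg _) (Finset.mem_univ i)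
        push_cast
        linarith
      refine mem_iUnion.mpr ⟨R, ?_⟩
      intro hfin
      exact hx (good_of_finite hC hbad' R (c1 R) (hc1 R) x hR hfin)
    refine (dimH_mono hsub).trans ?_
    rw [dimH_iUnion]
    exact iSup_le hdim
  have h2 : Filter.Tendsto (fun j : ℕ => ENNReal.ofReal ((m : ℝ) + 1 / ((j : ℝ) + 1))) Filter.atTop
      (nhds (ENNReal.ofReal ((m : ℝ) + 0))) := by
    apply ENNReal.tendsto_ofReal
    apply Filter.Tendsto.const_add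
    exact tendsto_one_div_add_atTop_nhds_zero_nat
  have h3 := ge_of_tendsto' h2 h1
  rw [add_zero, ENNReal.ofReal_natCast] at h3
  exact h3

end Pool.Agent.Y549.QS.Asm
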