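import Pool.Agent.Y549.QS.Stm

set_option autoImplicit false

/-! BADC: covering of the bad set by few small balls (helper480, job QS-BADC). -/

namespace Pool.Agent.Y549.QS.BADC

open MvPolynomial MeasureTheory Set Pool.Agent.H334R2

theorem main (h : S_PIECE) : S_BADC := by
  classical
  intro m δ T R ε η hR hε hε1 hη hη1 hεη
  have hL : 0 ≤ bigL m δ T R := by unfold bigL; positivity
  have hR0 : 0 ≤ R := le_trans zero_le_one hR
  set B : ℝ := (2 * R * bigL m δ T R / ε + 3) ^ m * (8 * R * bigL m δ T R / η + 1) with hB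
  have hB0 : 0 ≤ B := by rw [hB]; positivity
  let I := ((Vars (m + 1) → Fin (δ + 1)) → Fin (2 * T + 1)) × Fin (m + 1)
  let q : I → MvPolynomial (Vars (m + 1)) ℤ := fun p => toPoly (fun s => ((p.1 s : ℕ) : ℤ) - T)
  have key : ∀ p : I, ∃ F : Finset (Fin (m + 1) → ℝ), (F.card : ℝ) ≤ B ∧
      (InBox (δ + 1) T (q p) → InBox (δ + 1) T (D p.2 (D p.2 (q p))) →
       ∀ x : Fin (m + 1) → ℝ, (∀ j, |x j| ≤ R) → |fQ (q p) x| ≤ ε → η ≤ |fQ (D p.2 (q p)) x| →
      ∃ c ∈ F, ∀ j, |x j - c j| ≤ 16 * ε / η) := by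
    intro p
    by_cases hp : InBox (δ + 1) T (q p) ∧ InBox (δ + 1) T (D p.2 (D p.2 (q p)))
    · obtain ⟨F, hF, hF2⟩ := h m δ T R ε η hR hε hε1 hη hη1 hεη (q p) p.2 hp.1 hp.2
      exact ⟨F, hF, fun _ _ => hF2⟩
    · exact ⟨∅, by simpa using hB0, fun h1 h2 => absurd ⟨h1, h2⟩ hp⟩
  choose G hG1 hG2 using key
  refine ⟨Finset.univ.biUnion G, ?_, ?_⟩
  · have hcard : Fintype.card I = (2 * T + 1) ^ ((δ + 1) ^ (2 * (m + 1))) * (m + 1) := by
      simp only [I, Fintype.card_prod, Fintype.card_fun, Fintype.card_fin, Fintype.card_sum]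
      rw [two_mul (m + 1)]
    calc ((Finset.univ.biUnion G).card : ℝ) ≤ ((∑ p : I, (G p).card : ℕ) : ℝ) := by
          exact_mod_cast Finset.card_biUnion_le
      _ = ∑ p : I, ((G p).card : ℝ) := by push_cast; rfl
      _ ≤ ∑ p : I, B := Finset.sum_le_sum fun p _ => hG1 p
      _ = _ := by
          rw [Finset.sum_const, Finset.card_univ, hcard, nsmul_eq_mul]; push_cast; ring
  · rintro x ⟨hx, Q, i, hQ, hDD, h1, h2⟩
    let p : I := ⟨fun s => ⟨(coeff (expo s) Q + T).toNat, by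
          have := abs_le.mp (hQ.2 (expo s))
          omega⟩, i⟩
    have hq : q p = Q := by
      conv_rhs => rw [eq_toPoly hQ]
      simp only [q, p]
      congr 1
      funext s
      have := abs_le.mp (hQ.2 (expo s))
      rw [Int.toNat_of_nonneg (by omega)]
      ring
    have hp2 : p.2 = i := rfl
    have hmain := hG2 p
    rw [hq, hp2] at hmain
    obtain ⟨c, hc, hcx⟩ := hmain hQ hDD x hx h1 h2
    simp only [mem_iUnion]
    refine ⟨c, Finset.mem_biUnion.mpr ⟨p, Finset.mem_univ _, hc⟩, ?_⟩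
    rw [Metric.mem_closedBall, dist_pi_le_iff (by positivity)]
    intro j
    rw [Real.dist_eq]
    exact hcx j

end Pool.Agent.Y549.QS.BADC
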