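import Pool.Agent.Y549.QS.Stm

/-! Hausdorff dimension of an upper limit (helper569). -/

set_option autoImplicit false

namespace Pool.Agent.Y549.QS.LIM

open MeasureTheory Set Filter Topology
open scoped ENNReal NNReal

theorem summ : Summable (fun p : ℕ × ℕ => Real.exp (-(p.1 + p.2 : ℝ))) := by
  have h1 := Real.summable_exp_neg_nat.mul_of_nonneg Real.summable_exp_neg_nat
    (fun n => (Real.exp_pos _).le) (fun n => (Real.exp_pos _).le)
  refine h1.congr fun p => ?_
  rw [← Real.exp_add]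
  congr 1
  ring

theorem ball_ediam {m : ℕ} (c : Fin (m + 1) → ℝ) {r : ℝ} (hr : 0 < r) :
    Metric.ediam (Metric.closedBall c r) ≤ ENNReal.ofReal (2 * r) := by
  apply Metric.ediam_le_of_forall_dist_le
  intro x hx y hy
  have h1 := dist_triangle_right x y c
  rw [Metric.mem_closedBall] at hx hy
  linarith

theorem main : S_LIM := by
  intro m s S r hs hr hF
  choose F hF1 hF2 using hF
  have hsn : ((Real.toNNReal s : ℝ≥0) : ℝ) = s := Real.coe_toNNReal s hs
  have hgoal : ENNReal.ofReal s = ((Real.toNNReal s : ℝ≥0) : ℝ≥0∞) := rfl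
  rw [hgoal]
  apply dimH_le_of_hausdorffMeasure_ne_top
  rw [hsn]
  have hrt : Tendsto (fun n : ℕ => ENNReal.ofReal (2 * Real.exp (-(n : ℝ)))) atTop (𝓝 0) := by
    have h1 : Tendsto (fun n : ℕ => 2 * Real.exp (-(n : ℝ))) atTop (𝓝 (2 * 0)) :=
      (Real.tendsto_exp_neg_atTop_nhds_zero.comp tendsto_natCast_atTop_atTop).const_mul 2
    rw [mul_zero] at h1
    have h2 := ENNReal.tendsto_ofReal h1
    simpa using h2
  have key := Measure.hausdorffMeasure_le_liminf_tsum (X := Fin (m + 1) → ℝ) (β := ℕ)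
    (ι := fun n => Σ p : {p : ℕ × ℕ // n ≤ p.1 + p.2}, (F p.1)) s
    {x | {p | x ∈ S p}.Infinite} (l := atTop)
    (fun n : ℕ => ENNReal.ofReal (2 * Real.exp (-(n : ℝ)))) hrt
    (fun n q => Metric.closedBall (q.2 : Fin (m + 1) → ℝ) (r q.1.1))
    (Eventually.of_forall fun n q => by
      refine (ball_ediam _ (hr _).1).trans (ENNReal.ofReal_le_ofReal ?_)
      have h1 := (hr q.1.1).2
      have h2 : Real.exp (-((q.1.1.1 : ℝ) + q.1.1.2)) ≤ Real.exp (-(n : ℝ)) := by
        apply Real.exp_le_exp.2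
        have h3 : (n : ℝ) ≤ (q.1.1.1 : ℝ) + q.1.1.2 := by exact_mod_cast q.1.2
        linarith
      linarith)
    (Eventually.of_forall fun n x hx => by
      have h1 : ∃ p : ℕ × ℕ, n ≤ p.1 + p.2 ∧ x ∈ S p := by
        by_contra hcon
        push Not at hcon
        refine hx (((Finset.range n ×ˢ Finset.range n).finite_toSet).subset ?_)
        intro p hp
        by_contra hpn
        refine hcon p ?_ hp
        rw [Finset.mem_coe, Finset.mem_product, Finset.mem_range, Finset.mem_range] at hpn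
        omega
      obtain ⟨p, hp, hxp⟩ := h1
      have h2 := hF2 p hxp
      rw [mem_iUnion₂] at h2
      obtain ⟨c, hc, hxc⟩ := h2
      rw [Set.mem_iUnion]
      exact ⟨⟨⟨p, hp⟩, ⟨c, hc⟩⟩, hxc⟩)
  refine ne_top_of_le_ne_top ?_ key
  have h2s : (0 : ℝ) < 2 ^ s := Real.rpow_pos_of_pos two_pos s
  have htot : (∑' p : ℕ × ℕ, ENNReal.ofReal (2 ^ s * Real.exp (-(p.1 + p.2 : ℝ)))) ≠ ⊤ := by
    rw [← ENNReal.ofReal_tsum_of_nonneg (fun p => by positivity) (summ.mul_left _)]
    exact ENNReal.ofReal_ne_top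
  have hbound : ∀ n : ℕ, (∑' q : Σ p : {p : ℕ × ℕ // n ≤ p.1 + p.2}, (F p.1),
      Metric.ediam (Metric.closedBall (q.2 : Fin (m + 1) → ℝ) (r q.1.1)) ^ s) ≤
      ∑' p : ℕ × ℕ, ENNReal.ofReal (2 ^ s * Real.exp (-(p.1 + p.2 : ℝ))) := by
    intro n
    rw [ENNReal.tsum_sigma']
    calc (∑' p : {p : ℕ × ℕ // n ≤ p.1 + p.2}, ∑' x : (F p.1),
        Metric.ediam (Metric.closedBall (x : Fin (m + 1) → ℝ) (r p.1)) ^ s)
        ≤ ∑' p : {p : ℕ × ℕ // n ≤ p.1 + p.2},
          ENNReal.ofReal (2 ^ s * Real.exp (-(p.1.1 + p.1.2 : ℝ))) := by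
          apply ENNReal.tsum_le_tsum
          intro p
          have hr0 := (hr p.1).1
          have h1 : ∀ x : (F p.1),
              Metric.ediam (Metric.closedBall (x : Fin (m + 1) → ℝ) (r p.1)) ^ s ≤
                ENNReal.ofReal ((2 * r p.1) ^ s) := by
            intro x
            rw [← ENNReal.ofReal_rpow_of_pos (by positivity)]
            exact ENNReal.rpow_le_rpow (ball_ediam _ hr0) hs
          refine (ENNReal.tsum_le_tsum h1).trans ?_
          rw [tsum_fintype]
          simp only [Finset.sum_const, Finset.card_univ, Fintype.card_coe, nsmul_eq_mul]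
          rw [← ENNReal.ofReal_natCast, ← ENNReal.ofReal_mul (by positivity)]
          apply ENNReal.ofReal_le_ofReal
          rw [Real.mul_rpow two_pos.le hr0.le]
          calc ((F p.1).card : ℝ) * (2 ^ s * r p.1 ^ s) =
              2 ^ s * (((F p.1).card : ℝ) * r p.1 ^ s) := by ring
            _ ≤ _ := mul_le_mul_of_nonneg_left (hF1 p.1) h2s.le
      _ ≤ ∑' p : ℕ × ℕ, ENNReal.ofReal (2 ^ s * Real.exp (-(p.1 + p.2 : ℝ))) :=
          ENNReal.tsum_comp_le_tsum_of_injective Subtype.val_injective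
            (fun p : ℕ × ℕ => ENNReal.ofReal (2 ^ s * Real.exp (-(p.1 + p.2 : ℝ))))
  refine ne_top_of_le_ne_top htot ?_
  apply Filter.liminf_le_of_le
  · isBoundedDefault
  · intro b hb
    obtain ⟨n, hn⟩ := hb.exists
    exact hn.trans (hbound n)

end Pool.Agent.Y549.QS.LIM
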