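import Pool.Agent.Y549.QS.Stm

/-!
The proof of `mem_bad` (starting file `Pool.Agent.H334R2.Main`) with an arbitrary large constant.
-/

set_option autoImplicit false

namespace Pool.Agent.Y549.QS.MEM

open MeasureTheory MvPolynomial Pool.Agent.H334R2 Pool.Agent.Y549.QS

theorem main : S_MEM := by
  intro m
  obtain ⟨C, hC, hmain⟩ := arith_main (m + 1)
  refine ⟨C, hC, ?_⟩
  intro R c1 hc1le x hx c2 hc2 α β hα hβ d M hd hdM hhα hhβ hxβ hxα
  classical
  set L := IntermediateField.adjoin ℚ (Set.range α ∪ Set.range β) with hL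
  have hfin : FiniteDimensional ℚ L := by
    apply IntermediateField.finiteDimensional_adjoin
    rintro z (⟨i, rfl⟩ | ⟨i, rfl⟩)
    · exact (hα i).isIntegral
    · exact (hβ i).isIntegral
  have : NumberField L := nf L
  have hfr := finrank_eq L
  have hαL : ∀ i, α i ∈ L := fun i =>
    IntermediateField.subset_adjoin ℚ _ (Or.inl ⟨i, rfl⟩)
  have hβL : ∀ i, β i ∈ L := fun i =>
    IntermediateField.subset_adjoin ℚ _ (Or.inr ⟨i, rfl⟩)
  let y : Vars (m + 1) → L := Sum.elim (fun i => ⟨β i, hβL i⟩) (fun i => ⟨α i, hαL i⟩)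
  have hd1 : 1 ≤ d := by rw [hd]; exact Module.finrank_pos
  set δ := deltaS (m + 1) d with hδ
  have hδ1 : 1 ≤ δ := one_le_deltaS (by omega) hd1
  have hδR : (1 : ℝ) ≤ δ := by exact_mod_cast hδ1
  have hdR : (1 : ℝ) ≤ d := by exact_mod_cast hd1
  have hdMR : (d : ℝ) ≤ M := by exact_mod_cast hdM
  have hMR : (1 : ℝ) ≤ M := by linarith
  set A : ℝ := M * δ with hA
  have hA1 : 1 ≤ A := by rw [hA]; nlinarith
  have hδA : (δ : ℝ) ≤ A := by rw [hA]; nlinarith
  have hm0 : (0 : ℝ) ≤ m := by positivity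
  set R1 : ℝ := ((R + 1 : ℕ) : ℝ) with hR1
  have hR1pos : 1 ≤ R1 := by rw [hR1]; push_cast; linarith [show (0 : ℝ) ≤ R by positivity]
  have hc1 : C + 1 ≤ c1 := by
    refine le_trans ?_ hc1le
    rw [cOne]
    have h1 : (0 : ℝ) ≤ 16 ^ (m + 1) * (2 + C) := by positivity
    have h2 : (0 : ℝ) ≤ 4 * R1 * (m + 1) := by positivity
    nlinarith
  have hc2R : R1 ≤ c2 := by
    have h1 : (0 : ℝ) ≤ 2 * m * R1 := by positivity
    nlinarith
  set ε : ℝ := Real.exp (-(c2 * A)) with hε
  have hεpos : 0 < ε := Real.exp_pos _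
  have hc2pos : 0 < c2 := by linarith
  have hε1 : ε ≤ 1 := by
    rw [hε, ← Real.exp_zero]
    refine Real.exp_le_exp.mpr ?_
    have : 0 ≤ c2 * A := by positivity
    linarith
  -- coordinates α are nonzero
  have hα0 : ∀ i, α i ≠ 0 := by
    intro i h0
    have h1 := hxα i
    rw [h0, sub_zero, Complex.norm_exp] at h1
    simp only [Complex.ofReal_re] at h1
    rw [hε] at h1
    have h2 := Real.exp_lt_exp.mp h1
    have h3 := (abs_le.mp (hx i)).1
    nlinarith
  obtain ⟨Q, i, hQ1, hQ2, hQ3, hQv, hQn⟩ := hmain L (phi L) y M (by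
      intro j
      rcases j with i | i
      · have := hhβ i; rw [hd, hfr] at this; exact this
      · have := hhα i; rw [hd, hfr] at this; exact this)
    (fun i => hα0 i) (by rw [← hfr, ← hd]; exact_mod_cast hdM) δ
    (by rw [← hfr, ← hd]; exact four_mul_le (by omega) hd1) hδ1
  rw [← hfr, ← hd] at hQ1 hQ2 hQ3
  set T := ⌊Real.exp (C * ((M : ℝ) / d) * δ)⌋₊ with hT
  have hγ : (fun j => phi L (y j)) = Sum.elim β α := by
    funext j
    rcases j with i | i <;> rfl
  rw [hγ] at hQv hQn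
  set γ : Vars (m + 1) → ℂ := Sum.elim β α with hγdef
  set ρ : ℝ := Real.exp R1 + 1 with hρ
  have hρ1 : 1 ≤ ρ := by rw [hρ]; linarith [Real.exp_pos R1]
  have hy : ∀ j, ‖thc x j‖ ≤ ρ := fun j => (norm_thc_le hx j).trans (by rw [hρ]; linarith)
  have hyγ : ∀ j, ‖thc x j - γ j‖ ≤ ε := by
    intro j
    rcases j with i | i
    · exact hxβ i
    · have := (hxα i).le
      simpa [thc, thr, hγdef] using this
  have hz : ∀ j, ‖γ j‖ ≤ ρ := by
    intro j
    have h1 : ‖γ j‖ ≤ ‖thc x j‖ + ‖thc x j - γ j‖ := by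
      have := norm_sub_norm_le (γ j) (thc x j)
      rw [norm_sub_rev] at this
      linarith
    have h2 := norm_thc_le hx j
    rw [hρ]
    linarith [hyγ j]
  have hρexp : ρ ≤ Real.exp (R1 + 1) := by
    rw [hρ, Real.exp_add]
    have h1 : (2 : ℝ) ≤ Real.exp 1 := by have := Real.add_one_le_exp (1 : ℝ); linarith
    have h2 : (1 : ℝ) ≤ Real.exp R1 := Real.one_le_exp (by linarith)
    nlinarith
  -- the difference bound
  have hdiff : ∀ P : MvPolynomial (Vars (m + 1)) ℤ, InBox (δ + 1) T P →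
      ‖aeval (thc x) P - aeval γ P‖ ≤ Real.exp (-(c1 * A)) := by
    intro P hP
    refine (norm_aeval_sub_le hP hρ1 hy hz hyγ hεpos.le).trans ?_
    have h1 : ((δ : ℝ) + 1) ^ (2 * (m + 1)) ≤ Real.exp (2 * (m + 1) * A) := by
      calc ((δ : ℝ) + 1) ^ (2 * (m + 1)) ≤ (Real.exp δ) ^ (2 * (m + 1)) :=
            pow_le_pow_left₀ (by positivity) (Real.add_one_le_exp _) _
        _ = Real.exp (2 * (m + 1) * δ) := by rw [← Real.exp_nat_mul]; push_cast; ring_nf
        _ ≤ _ := Real.exp_le_exp.mpr (mul_le_mul_of_nonneg_left hδA (by positivity))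
    have h2 : (T : ℝ) ≤ Real.exp (C * A) := by
      refine (Nat.floor_le (Real.exp_pos _).le).trans (Real.exp_le_exp.mpr ?_)
      rw [hA]
      have : (M : ℝ) / d ≤ M := div_le_self (by linarith) hdR
      calc C * ((M : ℝ) / d) * δ ≤ C * M * δ := by
            refine mul_le_mul_of_nonneg_right (mul_le_mul_of_nonneg_left this hC.le) (by linarith)
        _ = C * (M * δ) := by ring
    have h3 : (2 * ((m + 1 : ℕ) : ℝ) * δ) ≤ Real.exp (2 * (m + 1) * A) := by
      refine (le_exp_self _).trans (Real.exp_le_exp.mpr ?_)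
      push_cast
      exact mul_le_mul_of_nonneg_left hδA (by positivity)
    have h4 : ρ ^ (2 * (m + 1) * δ) ≤ Real.exp (2 * (m + 1) * (R1 + 1) * A) := by
      calc ρ ^ (2 * (m + 1) * δ) ≤ (Real.exp (R1 + 1)) ^ (2 * (m + 1) * δ) :=
            pow_le_pow_left₀ (by positivity) hρexp _
        _ = Real.exp (2 * (m + 1) * (R1 + 1) * δ) := by
            rw [← Real.exp_nat_mul]; push_cast; ring_nf
        _ ≤ _ := Real.exp_le_exp.mpr (mul_le_mul_of_nonneg_left hδA (by positivity))
    calc ((δ + 1) ^ (2 * (m + 1)) * T : ℝ) * ((2 * ((m + 1 : ℕ) : ℝ) * δ) * ρ ^ (2 * (m + 1) * δ) * ε)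
        ≤ (Real.exp (2 * (m + 1) * A) * Real.exp (C * A)) *
          ((Real.exp (2 * (m + 1) * A)) * Real.exp (2 * (m + 1) * (R1 + 1) * A) *
            Real.exp (-(c2 * A))) := by
          refine mul_le_mul (mul_le_mul h1 h2 (by positivity) (by positivity)) ?_
            (by positivity) (by positivity)
          exact mul_le_mul (mul_le_mul h3 h4 (by positivity) (by positivity)) le_rfl
            (by positivity) (by positivity)
      _ = Real.exp ((2 * (m + 1) * A + C * A) + ((2 * (m + 1) * A +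
            2 * (m + 1) * (R1 + 1) * A) + -(c2 * A))) := by
          simp only [Real.exp_add]
      _ ≤ Real.exp (-(c1 * A)) := by
          refine Real.exp_le_exp.mpr ?_
          have h5 : (2 * ((m : ℝ) + 1) * A + C * A) + ((2 * (m + 1) * A +
            2 * (m + 1) * (R1 + 1) * A) + -(c2 * A)) = -(c1 * A) +
            (c1 + (6 * (m + 1) + 2 * (m + 1) * R1 + C) - c2) * A := by ring
          rw [h5]
          have h6 : (c1 + (6 * (m + 1) + 2 * (m + 1) * R1 + C) - c2) * A ≤ 0 :=
            mul_nonpos_of_nonpos_of_nonneg (by linarith) (by linarith)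
          linarith
  have hdM' : d + (M - d) = M := by omega
  have hd' : d - 1 + 1 = d := by omega
  rw [badC]
  simp only [hd', hdM']
  refine ⟨hx, Q, i, ?_, ?_, ?_, ?_⟩
  · exact hQ1
  · exact hQ3
  · have h1 := hdiff Q hQ1
    rw [hQv, sub_zero, norm_aeval_thc] at h1
    exact h1
  · have h1 := hdiff (D i Q) hQ2
    rw [← norm_aeval_thc]
    have h2 : ‖aeval γ (D i Q)‖ ≤ ‖aeval (thc x) (D i Q)‖ + ‖aeval (thc x) (D i Q) - aeval γ (D i Q)‖ := by
      have := norm_sub_norm_le (aeval γ (D i Q)) (aeval (thc x) (D i Q))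
      rw [norm_sub_rev] at this
      linarith
    have h3 : Real.exp (-(c1 * A)) ≤ Real.exp (-(C * A)) / 2 := by
      have h4 : Real.exp (-(c1 * A)) ≤ Real.exp (-(C * A) + -1) := by
        refine Real.exp_le_exp.mpr ?_
        nlinarith
      rw [Real.exp_add] at h4
      have h5 : Real.exp (-1) ≤ 1 / 2 := by
        rw [Real.exp_neg, ← one_div]
        refine one_div_le_one_div_of_le (by norm_num) ?_
        have := Real.add_one_le_exp (1 : ℝ); linarith
      have h6 := Real.exp_pos (-(C * A))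
      nlinarith
    have h7 : Real.exp (-(C * A)) ≤ ‖aeval γ (D i Q)‖ := by
      refine le_trans (Real.exp_le_exp.mpr ?_) hQn
      rw [hA]; apply le_of_eq; ring
    linarith

end Pool.Agent.Y549.QS.MEM
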