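import Pool.Agent.Y549.QS.Stm

/-! Job QS-NUMB: the choice of the constant (helper901). -/

set_option autoImplicit false

namespace Pool.Agent.Y549.QS.NUMB

open MvPolynomial MeasureTheory Set Pool.Agent.H334R2 Pool.Agent.Y549.QS

/-- exponent of the first factor -/
noncomputable def k1 (m : ℕ) (C : ℝ) : ℝ := 16 ^ (m + 1) * (2 + C) + (m + 1)

/-- exponent of `bigL` -/
noncomputable def k2 (m : ℕ) (C R : ℝ) : ℝ :=
  2 * (m + 1) + (3 + C) + 2 * (m + 1) + (2 * (m + 1) + 1) * (R + 1)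

noncomputable def k4 (m : ℕ) (C R κ : ℝ) : ℝ :=
  k1 m C + m * (R + k2 m C R + 3) + (R + k2 m C R + C + 5) + (C + 5) * (m + κ)

noncomputable def cc (m : ℕ) (C R κ : ℝ) : ℝ :=
  max (cOne m C R) (max ((k4 m C R κ + 1) / κ) (C + 6))

theorem forty_eight_le : (48 : ℝ) ≤ Real.exp 5 := by
  rw [show (5 : ℝ) = 2 + 3 by norm_num, Real.exp_add]
  have h1 := three_le_exp_two
  have h2 := sixteen_le_exp
  nlinarith [Real.exp_pos 2, Real.exp_pos 3]

theorem two_le : (2 : ℝ) ≤ Real.exp 1 := by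
  have := Real.add_one_le_exp (1 : ℝ)
  linarith

theorem first {m : ℕ} {C A e1 : ℝ} {T N0 d : ℕ} (hC : 0 < C) (hA1 : 1 ≤ A) (hdA : (d : ℝ) ≤ A)
    (he10 : 0 ≤ e1) (hTle : (T : ℝ) ≤ Real.exp e1) (hde : (d : ℝ) * e1 = C * A)
    (hN0le : (N0 : ℝ) ≤ 16 ^ (m + 1) * d) :
    (2 * T + 1 : ℝ) ^ N0 * (m + 1) ≤ Real.exp (k1 m C * A) := by
  have hb1 : (2 * T + 1 : ℝ) ^ N0 * (m + 1) ≤
      Real.exp (16 ^ (m + 1) * (2 + C) * A) * Real.exp ((m + 1) * A) := by
    refine mul_le_mul ?_ ?_ (by positivity) (by positivity)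
    · have h1 : (2 * (T : ℝ) + 1) ≤ Real.exp (2 + e1) := by
        have h2 : 1 ≤ Real.exp e1 := Real.one_le_exp he10
        calc (2 * (T : ℝ) + 1) ≤ 3 * Real.exp e1 := by linarith
          _ ≤ Real.exp 2 * Real.exp e1 :=
            mul_le_mul_of_nonneg_right three_le_exp_two (Real.exp_pos _).le
          _ = Real.exp (2 + e1) := by rw [Real.exp_add]
      calc (2 * (T : ℝ) + 1) ^ N0 ≤ (Real.exp (2 + e1)) ^ N0 :=
            pow_le_pow_left₀ (by positivity) h1 _
        _ = Real.exp (N0 * (2 + e1)) := by rw [← Real.exp_nat_mul]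
        _ ≤ Real.exp (16 ^ (m + 1) * (2 + C) * A) := by
            refine Real.exp_le_exp.mpr ?_
            calc (N0 : ℝ) * (2 + e1) ≤ (16 ^ (m + 1) * d) * (2 + e1) :=
                  mul_le_mul_of_nonneg_right hN0le (by positivity)
              _ = 16 ^ (m + 1) * (2 * d + d * e1) := by ring
              _ = 16 ^ (m + 1) * (2 * d + C * A) := by rw [hde]
              _ ≤ 16 ^ (m + 1) * (2 * A + C * A) := by
                  refine mul_le_mul_of_nonneg_left ?_ (by positivity)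
                  linarith
              _ = 16 ^ (m + 1) * (2 + C) * A := by ring
    · refine (le_exp_self _).trans (Real.exp_le_exp.mpr ?_)
      have : (0 : ℝ) ≤ m := by positivity
      nlinarith
  refine hb1.trans (le_of_eq ?_)
  rw [← Real.exp_add]
  congr 1
  unfold k1
  ring

theorem bigL_le {m δ T : ℕ} {C R A : ℝ} (hC : 0 < C) (hR : 1 ≤ R) (hA1 : 1 ≤ A)
    (hδA : (δ : ℝ) ≤ A) (hT : (T : ℝ) ≤ Real.exp (C * A)) :
    bigL m δ T R ≤ Real.exp (k2 m C R * A) := by
  unfold bigL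
  have hm : (0 : ℝ) ≤ m := Nat.cast_nonneg m
  have hδ0 : (0 : ℝ) ≤ δ := Nat.cast_nonneg δ
  have h1 : ((δ : ℝ) + 1) ^ (2 * (m + 1)) ≤ Real.exp (2 * (m + 1) * A) := by
    calc ((δ : ℝ) + 1) ^ (2 * (m + 1)) ≤ (Real.exp δ) ^ (2 * (m + 1)) :=
          pow_le_pow_left₀ (by positivity) (Real.add_one_le_exp _) _
      _ = Real.exp (2 * (m + 1) * δ) := by rw [← Real.exp_nat_mul]; push_cast; ring_nf
      _ ≤ _ := Real.exp_le_exp.mpr (mul_le_mul_of_nonneg_left hδA (by positivity))
  have h2 : (2 * δ + 1 : ℝ) * T + 1 ≤ Real.exp ((3 + C) * A) := by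
    have h3 : (2 * δ + 1 : ℝ) ≤ Real.exp (2 * A) :=
      (Real.add_one_le_exp _).trans (Real.exp_le_exp.mpr (by linarith))
    have h4 : (2 * δ + 1 : ℝ) * T ≤ Real.exp (2 * A) * Real.exp (C * A) :=
      mul_le_mul h3 hT (Nat.cast_nonneg _) (Real.exp_pos _).le
    have h5 : (1 : ℝ) ≤ Real.exp (2 * A) * Real.exp (C * A) := by
      rw [← Real.exp_add]
      exact Real.one_le_exp (by positivity)
    have h6 : (2 : ℝ) ≤ Real.exp A := two_le.trans (Real.exp_le_exp.mpr hA1)
    calc (2 * δ + 1 : ℝ) * T + 1 ≤ 2 * (Real.exp (2 * A) * Real.exp (C * A)) := by linarith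
      _ ≤ Real.exp A * (Real.exp (2 * A) * Real.exp (C * A)) :=
          mul_le_mul_of_nonneg_right h6 (by positivity)
      _ = _ := by rw [← Real.exp_add, ← Real.exp_add]; congr 1; ring
  have h3 : (2 * ((m : ℝ) + 1) * δ + 1 : ℝ) ≤ Real.exp (2 * (m + 1) * A) :=
    (Real.add_one_le_exp _).trans
      (Real.exp_le_exp.mpr (mul_le_mul_of_nonneg_left hδA (by positivity)))
  have h4 : Real.exp ((2 * ((m : ℝ) + 1) * δ + 1) * (R + 1)) ≤
      Real.exp ((2 * (m + 1) + 1) * (R + 1) * A) := by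
    refine Real.exp_le_exp.mpr ?_
    have h5 : 2 * ((m : ℝ) + 1) * δ + 1 ≤ (2 * (m + 1) + 1) * A := by
      have := mul_le_mul_of_nonneg_left hδA (show (0 : ℝ) ≤ 2 * ((m : ℝ) + 1) by positivity)
      linarith
    calc (2 * ((m : ℝ) + 1) * δ + 1) * (R + 1) ≤ ((2 * (m + 1) + 1) * A) * (R + 1) :=
          mul_le_mul_of_nonneg_right h5 (by linarith)
      _ = _ := by ring
  calc _ ≤ ((Real.exp (2 * (m + 1) * A) * Real.exp ((3 + C) * A)) * Real.exp (2 * (m + 1) * A)) *
        Real.exp ((2 * (m + 1) + 1) * (R + 1) * A) := by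
        refine mul_le_mul ?_ h4 (by positivity) (by positivity)
        refine mul_le_mul ?_ h3 (by positivity) (by positivity)
        exact mul_le_mul h1 h2 (by positivity) (by positivity)
    _ = _ := by
        rw [← Real.exp_add, ← Real.exp_add, ← Real.exp_add]
        congr 1
        unfold k2
        ring

theorem bigL_nonneg (m δ T : ℕ) (R : ℝ) : 0 ≤ bigL m δ T R := by
  unfold bigL
  positivity

theorem main : S_NUMB := by
  intro m C R κ hC hR hκ
  refine ⟨cc m C R κ, le_max_left _ _, ?_⟩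
  intro d M hd hdM δ T hδ hT ε η hε hη
  have hc1 : (k4 m C R κ + 1) / κ ≤ cc m C R κ := (le_max_left _ _).trans (le_max_right _ _)
  have hc2 : C + 6 ≤ cc m C R κ := (le_max_right _ _).trans (le_max_right _ _)
  generalize cc m C R κ = c1 at hc1 hc2 hε
  rw [div_le_iff₀ hκ] at hc1
  have hm : (0 : ℝ) ≤ m := Nat.cast_nonneg m
  have hδ1 : 1 ≤ δ := by rw [hδ]; exact one_le_deltaS (by omega) hd
  have hδR : (1 : ℝ) ≤ δ := by exact_mod_cast hδ1
  have hdR : (1 : ℝ) ≤ d := by exact_mod_cast hd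
  have hdMR : (d : ℝ) ≤ M := by exact_mod_cast hdM
  have hMR : (1 : ℝ) ≤ M := by linarith
  have hTle : (T : ℝ) ≤ Real.exp (C * ((M : ℝ) / d) * δ) := by
    rw [hT]
    exact Nat.floor_le (Real.exp_pos _).le
  have hde : (d : ℝ) * (C * ((M : ℝ) / d) * δ) = C * (M * δ) := by field_simp
  have he10 : 0 ≤ C * ((M : ℝ) / d) * δ := by positivity
  have he1A : C * ((M : ℝ) / d) * δ ≤ C * (M * δ) := by
    have : (M : ℝ) / d ≤ M := div_le_self (by linarith) hdR
    calc C * ((M : ℝ) / d) * δ ≤ C * M * δ := by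
          refine mul_le_mul_of_nonneg_right (mul_le_mul_of_nonneg_left this hC.le) (by linarith)
      _ = C * (M * δ) := by ring
  have hN0le : (((δ + 1) ^ (2 * (m + 1)) : ℕ) : ℝ) ≤ 16 ^ (m + 1) * d := by
    have := deltaS_pow_le (n := m + 1) (d := d) (by omega) hd
    rw [← hδ] at this
    push_cast at this ⊢; exact this
  have hA1 : (1 : ℝ) ≤ M * δ := by nlinarith
  have hMA : (M : ℝ) ≤ M * δ := by nlinarith
  have hδA : (δ : ℝ) ≤ M * δ := by nlinarith
  generalize (M : ℝ) * δ = A at *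
  have hdA : (d : ℝ) ≤ A := by linarith
  have f1 := first (m := m) hC hA1 hdA he10 hTle hde hN0le
  have fL := bigL_le (m := m) (δ := δ) (T := T) hC hR hA1 hδA
    (hTle.trans (Real.exp_le_exp.mpr he1A))
  have fL0 := bigL_nonneg m δ T R
  generalize bigL m δ T R = L at *
  generalize hk1 : k1 m C = K1 at *
  have hK2 : 0 ≤ k2 m C R := by unfold k2; positivity
  unfold k4 at hc1
  rw [hk1] at hc1
  generalize k2 m C R = K2 at *
  have hRA : R ≤ Real.exp (R * A) :=
    (le_exp_self _).trans (Real.exp_le_exp.mpr (by nlinarith))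
  have hRL : R * L ≤ Real.exp ((R + K2) * A) := by
    calc R * L ≤ Real.exp (R * A) * Real.exp (K2 * A) :=
          mul_le_mul hRA fL fL0 (Real.exp_pos _).le
      _ = _ := by rw [← Real.exp_add]; congr 1; ring
  have hRL0 : 0 ≤ R * L := by positivity
  -- the factors
  have g48 : (48 : ℝ) ≤ Real.exp (5 * A) :=
    forty_eight_le.trans (Real.exp_le_exp.mpr (by linarith))
  have g16 : (16 : ℝ) ≤ Real.exp (3 * A) :=
    sixteen_le_exp.trans (Real.exp_le_exp.mpr (by linarith))
  have hεpos : 0 < ε := by rw [hε]; exact Real.exp_pos _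
  have hηpos : 0 < η := by rw [hη]; positivity
  have hεinv : 1 / ε = Real.exp (c1 * A) := by
    rw [hε, Real.exp_neg, one_div, inv_inv]
  have hηinv : 1 / η = 2 * Real.exp (C * A) := by
    rw [hη, Real.exp_neg]
    field_simp
  have hc1A : 0 ≤ c1 * A := by
    have : 0 ≤ c1 := by linarith
    positivity
  have f2 : 2 * R * L / ε + 3 ≤ Real.exp ((R + K2 + 3) * A + c1 * A) := by
    have h1 : 2 * R * L / ε + 3 ≤ 16 * (Real.exp ((R + K2) * A) * Real.exp (c1 * A)) := by
      have h2 : 2 * R * L / ε = 2 * (R * L) * (1 / ε) := by ring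
      rw [h2, hεinv]
      have h3 : 1 ≤ Real.exp ((R + K2) * A) * Real.exp (c1 * A) := by
        rw [← Real.exp_add]
        exact Real.one_le_exp (by positivity)
      have h4 : R * L * Real.exp (c1 * A) ≤ Real.exp ((R + K2) * A) * Real.exp (c1 * A) :=
        mul_le_mul_of_nonneg_right hRL (Real.exp_pos _).le
      linarith
    calc _ ≤ _ := h1
      _ ≤ Real.exp (3 * A) * (Real.exp ((R + K2) * A) * Real.exp (c1 * A)) :=
          mul_le_mul_of_nonneg_right g16 (by positivity)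
      _ = _ := by rw [← Real.exp_add, ← Real.exp_add]; congr 1; ring
  have f20 : 0 ≤ 2 * R * L / ε + 3 := by positivity
  have f2m : (2 * R * L / ε + 3) ^ m ≤ Real.exp (m * ((R + K2 + 3) * A + c1 * A)) := by
    calc _ ≤ (Real.exp ((R + K2 + 3) * A + c1 * A)) ^ m := pow_le_pow_left₀ f20 f2 _
      _ = _ := by rw [← Real.exp_nat_mul]
  have f3 : 8 * R * L / η + 1 ≤ Real.exp ((R + K2 + C + 5) * A) := by
    have h1 : 8 * R * L / η + 1 ≤ 48 * (Real.exp ((R + K2) * A) * Real.exp (C * A)) := by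
      have h2 : 8 * R * L / η = 8 * (R * L) * (1 / η) := by ring
      rw [h2, hηinv]
      have h3 : 1 ≤ Real.exp ((R + K2) * A) * Real.exp (C * A) := by
        rw [← Real.exp_add]
        exact Real.one_le_exp (by positivity)
      have h4 : R * L * Real.exp (C * A) ≤ Real.exp ((R + K2) * A) * Real.exp (C * A) :=
        mul_le_mul_of_nonneg_right hRL (Real.exp_pos _).le
      linarith
    calc _ ≤ _ := h1
      _ ≤ Real.exp (5 * A) * (Real.exp ((R + K2) * A) * Real.exp (C * A)) :=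
          mul_le_mul_of_nonneg_right g48 (by positivity)
      _ = _ := by rw [← Real.exp_add, ← Real.exp_add]; congr 1; ring
  have f4 : 16 * ε / η ≤ Real.exp ((C + 5 - c1) * A) := by
    have h1 : 16 * ε / η = 32 * (Real.exp (C * A) * Real.exp (-(c1 * A))) := by
      rw [← hε]
      have h2 : 16 * ε / η = 16 * ε * (1 / η) := by ring
      rw [h2, hηinv]
      ring
    rw [h1]
    calc _ ≤ Real.exp (5 * A) * (Real.exp (C * A) * Real.exp (-(c1 * A))) :=
          mul_le_mul_of_nonneg_right (by linarith) (by positivity)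
      _ = _ := by rw [← Real.exp_add, ← Real.exp_add]; congr 1; ring
  have f40 : 0 ≤ 16 * ε / η := by positivity
  have hexp : (C + 5 - c1) * A ≤ -M := by
    have h1 : (C + 5 - c1) * A ≤ (-1) * A :=
      mul_le_mul_of_nonneg_right (by linarith) (by linarith)
    linarith
  have f5 : 16 * ε / η ≤ Real.exp (-M) := f4.trans (Real.exp_le_exp.mpr hexp)
  refine ⟨?_, f5, ?_⟩
  · have h1 : 16 * ε / η ≤ 1 := f5.trans (Real.exp_le_one_iff.mpr (by linarith))
    rw [div_le_one hηpos] at h1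
    linarith
  · have f6 : (16 * ε / η) ^ ((m : ℝ) + κ) ≤ Real.exp ((C + 5 - c1) * A * (m + κ)) := by
      rw [Real.exp_mul]
      exact Real.rpow_le_rpow f40 f4 (by positivity)
    have f60 : 0 ≤ (16 * ε / η) ^ ((m : ℝ) + κ) := Real.rpow_nonneg f40 _
    calc _ ≤ Real.exp (K1 * A) * (Real.exp (m * ((R + K2 + 3) * A + c1 * A)) *
          Real.exp ((R + K2 + C + 5) * A)) * Real.exp ((C + 5 - c1) * A * (m + κ)) := by
          refine mul_le_mul ?_ f6 f60 (by positivity)
          refine mul_le_mul f1 ?_ (by positivity) (by positivity)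
          exact mul_le_mul f2m f3 (by positivity) (by positivity)
      _ = Real.exp ((K1 + m * (R + K2 + 3) + (R + K2 + C + 5) + (C + 5) * (m + κ) - c1 * κ) * A) := by
          rw [← Real.exp_add, ← Real.exp_add, ← Real.exp_add]
          congr 1
          ring
      _ ≤ Real.exp (-M) := by
          refine Real.exp_le_exp.mpr ?_
          have h1 : (K1 + m * (R + K2 + 3) + (R + K2 + C + 5) + (C + 5) * (m + κ) - c1 * κ) * A ≤
              (-1) * A := mul_le_mul_of_nonneg_right (by linarith) (by linarith)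
          linarith

end Pool.Agent.Y549.QS.NUMB
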