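import Pool.Agent.Y549.QS.Stm

set_option autoImplicit false

/-! One-dimensional covering (helper93), extracted from `Pool.Agent.H334R2.volume_small_set`. -/

namespace Pool.Agent.Y549.QS.ONE

open MeasureTheory Set Pool.Agent.Y549.QS

theorem main : S_ONE := by
  classical
  intro g g' g'' hg hg' R M2 η ε hR hM2 hη hε hb
  set s : ℝ := η / (2 * M2) with hs
  have hspos : 0 < s := by positivity
  set E := {t | t ∈ Icc (-R) R ∧ |g t| ≤ ε ∧ η ≤ |g' t|} with hE
  -- two points of E at distance at most s are at distance at most 4ε/η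
  have hclose : ∀ a ∈ E, ∀ b ∈ E, a < b → b - a ≤ s → b - a ≤ 4 * ε / η := by
    intro a ha b hb' hab hbs
    obtain ⟨c, hc, hceq⟩ := exists_hasDerivAt_eq_slope g g' hab
      (fun t _ => (hg t).continuousAt.continuousWithinAt) (fun t _ => hg t)
    have hba : 0 < b - a := sub_pos.mpr hab
    have h1 : |g b - g a| = |g' c| * (b - a) := by
      rw [hceq, abs_div, abs_of_pos hba]; field_simp
    have h2 : |g' c - g' a| ≤ M2 * |c - a| := by
      rcases eq_or_lt_of_le (hc.1.le : a ≤ c) with heq | hlt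
      · rw [heq]; simp
      · obtain ⟨e, he, heeq⟩ := exists_hasDerivAt_eq_slope g' g'' hlt
          (fun t _ => (hg' t).continuousAt.continuousWithinAt) (fun t _ => hg' t)
        have hca : 0 < c - a := sub_pos.mpr hlt
        have h3 : g' c - g' a = g'' e * (c - a) := by rw [heeq]; field_simp
        rw [h3, abs_mul]
        refine mul_le_mul_of_nonneg_right ?_ (abs_nonneg _)
        refine hb e ⟨?_, ?_⟩
        · exact ha.1.1.trans he.1.le
        · exact (he.2.le.trans hc.2.le).trans hb'.1.2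
    have h3 : |c - a| ≤ s := by
      rw [abs_of_pos (sub_pos.mpr hc.1)]
      linarith [hc.2]
    have h4 : M2 * |c - a| ≤ η / 2 := by
      calc M2 * |c - a| ≤ M2 * s := mul_le_mul_of_nonneg_left h3 hM2.le
        _ = η / 2 := by rw [hs]; field_simp
    have h5 : η / 2 ≤ |g' c| := by
      have h6 := ha.2.2
      have h7 : |g' a| ≤ |g' c| + |g' c - g' a| := by
        have := abs_sub_abs_le_abs_sub (g' a) (g' c)
        rw [abs_sub_comm] at this
        linarith
      linarith
    have h6 : |g b - g a| ≤ 2 * ε := by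
      have := abs_sub (g b) (g a)
      linarith [ha.2.1, hb'.2.1]
    rw [h1] at h6
    rw [le_div_iff₀ hη]
    nlinarith
  have hclose' : ∀ a ∈ E, ∀ b ∈ E, |b - a| ≤ s → |b - a| ≤ 4 * ε / η := by
    intro a ha b hb' h
    rcases lt_trichotomy a b with hab | hab | hab
    · have h1 : 0 < b - a := sub_pos.2 hab
      rw [abs_of_pos h1] at h ⊢
      exact hclose a ha b hb' hab h
    · subst hab
      rw [sub_self, abs_zero]
      positivity
    · have h1 : 0 < a - b := sub_pos.2 hab
      rw [abs_sub_comm, abs_of_pos h1] at h ⊢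
      exact hclose b hb' a ha hab h
  -- choose a point in every piece
  set N : ℕ := ⌊2 * R / s⌋₊ + 1 with hN
  have hch : ∀ k : ℕ, ∃ c : ℝ, (∃ t ∈ E, ⌊(t + R) / s⌋₊ = k) → (c ∈ E ∧ ⌊(c + R) / s⌋₊ = k) := by
    intro k
    by_cases h : ∃ t ∈ E, ⌊(t + R) / s⌋₊ = k
    · obtain ⟨t, ht, htk⟩ := h
      exact ⟨t, fun _ => ⟨ht, htk⟩⟩
    · exact ⟨0, fun h' => absurd h' h⟩
  choose c hc using hch
  refine ⟨(Finset.range N).image c, ?_, ?_⟩
  · have h1 : (((Finset.range N).image c).card : ℝ) ≤ N := by
      have h2 := Finset.card_image_le (s := Finset.range N) (f := c)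
      rw [Finset.card_range] at h2
      exact_mod_cast h2
    have h3 : (⌊2 * R / s⌋₊ : ℝ) ≤ 2 * R / s := Nat.floor_le (by positivity)
    have h4 : 2 * R / s = 4 * R * M2 / η := by
      rw [hs]
      field_simp
      ring
    rw [hN] at h1
    push_cast at h1
    rw [← h4]
    linarith
  · intro t ht1 ht2 ht3
    have ht : t ∈ E := ⟨ht1, ht2, ht3⟩
    obtain ⟨hcE, hck⟩ := hc _ ⟨t, ht, rfl⟩
    refine ⟨c ⌊(t + R) / s⌋₊, Finset.mem_image.2 ⟨_, ?_, rfl⟩, ?_⟩
    · rw [Finset.mem_range, hN, Nat.lt_succ_iff]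
      refine Nat.floor_le_floor ?_
      exact div_le_div_of_nonneg_right (by linarith [ht1.2]) hspos.le
    · refine hclose' _ hcE _ ht ?_
      set d := c ⌊(t + R) / s⌋₊ with hd
      have h0 : 0 ≤ (t + R) / s := div_nonneg (by linarith [ht1.1]) hspos.le
      have h0' : 0 ≤ (d + R) / s := div_nonneg (by linarith [hcE.1.1]) hspos.le
      have a1 := Nat.floor_le h0
      have a2 := Nat.lt_floor_add_one ((t + R) / s)
      have b1 := Nat.floor_le h0'
      have b2 := Nat.lt_floor_add_one ((d + R) / s)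
      rw [hck] at b1 b2
      have e1 : (t + R) / s - (d + R) / s ≤ 1 := by linarith
      have e2 : (d + R) / s - (t + R) / s ≤ 1 := by linarith
      rw [← sub_div, div_le_one hspos] at e1 e2
      rw [abs_le]
      constructor <;> linarith

end Pool.Agent.Y549.QS.ONE
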