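import Pool.Agent.Y549.QS.Stm

/-! Project QS (helper549): covering for one polynomial. -/

set_option autoImplicit false

namespace Pool.Agent.Y549.QS.PIECE

open MvPolynomial MeasureTheory Set Pool.Agent.H334R2 Pool.Agent.Y549.QS

lemma exp_lip {a b M r : ℝ} (ha : a ≤ M) (hb : b ≤ M) (h : |a - b| ≤ r) :
    |Real.exp a - Real.exp b| ≤ Real.exp M * r := by
  have key : ∀ u v : ℝ, v ≤ u → u ≤ M → |Real.exp u - Real.exp v| ≤ Real.exp M * (u - v) := by
    intro u v huv huM
    have h1 : Real.exp v ≤ Real.exp u := Real.exp_le_exp.2 huv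
    rw [abs_of_nonneg (by linarith)]
    have h2 := Real.add_one_le_exp (v - u)
    have h3 : Real.exp u * Real.exp (v - u) = Real.exp v := by
      rw [← Real.exp_add]; congr 1; ring
    have h4 : Real.exp u ≤ Real.exp M := Real.exp_le_exp.2 huM
    have h5 : Real.exp u * (v - u + 1) ≤ Real.exp u * Real.exp (v - u) :=
      mul_le_mul_of_nonneg_left h2 (Real.exp_pos u).le
    have h6 : Real.exp u * (u - v) ≤ Real.exp M * (u - v) :=
      mul_le_mul_of_nonneg_right h4 (by linarith)
    linarith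
  have hM := (Real.exp_pos M).le
  rcases le_total b a with hab | hab
  · refine (key a b hab ha).trans (mul_le_mul_of_nonneg_left ?_ hM)
    exact (le_abs_self _).trans h
  · rw [abs_sub_comm]
    refine (key b a hab hb).trans (mul_le_mul_of_nonneg_left ?_ hM)
    rw [abs_sub_comm] at h
    exact (le_abs_self _).trans h

lemma one_le_bigL (m δ T : ℕ) {R : ℝ} (hR : 0 ≤ R) : 1 ≤ bigL m δ T R := by
  unfold bigL
  have h1 : (1:ℝ) ≤ ((δ:ℝ) + 1) ^ (2 * (m + 1)) :=
    one_le_pow₀ (by linarith [Nat.cast_nonneg (α := ℝ) δ])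
  have h2 : (1:ℝ) ≤ (2 * (δ:ℝ) + 1) * T + 1 := by
    have : (0:ℝ) ≤ (2 * (δ:ℝ) + 1) * T := by positivity
    linarith
  have h3 : (1:ℝ) ≤ 2 * ((m:ℝ) + 1) * δ + 1 := by
    have : (0:ℝ) ≤ 2 * ((m:ℝ) + 1) * δ := by positivity
    linarith
  have h4 : (1:ℝ) ≤ Real.exp ((2 * ((m:ℝ) + 1) * δ + 1) * (R + 1)) :=
    Real.one_le_exp (by positivity)
  have h5 := one_le_mul_of_one_le_of_one_le
    (one_le_mul_of_one_le_of_one_le (one_le_mul_of_one_le_of_one_le h1 h2) h3) h4
  exact h5

/-- Lipschitz bound -/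
lemma lip {m δ T T' : ℕ} {R r : ℝ} (hR : 0 ≤ R) (hr : 0 ≤ r)
    (hT : (T' : ℝ) ≤ (2 * (δ:ℝ) + 1) * T + 1)
    {P : MvPolynomial (Vars (m + 1)) ℤ} (hP : InBox (δ + 1) T' P) {x y : Fin (m + 1) → ℝ}
    (hx : ∀ j, |x j| ≤ R + 1) (hy : ∀ j, |y j| ≤ R + 1) (hxy : ∀ j, |x j - y j| ≤ r) :
    |fQ P x - fQ P y| ≤ bigL m δ T R * r := by
  have hone : (1:ℝ) ≤ Real.exp (R + 1) := Real.one_le_exp (by linarith)
  have hd : ∀ j, ‖thc x j - thc y j‖ ≤ Real.exp (R + 1) * r := by
    intro j
    rw [thc, thc, ← Complex.ofReal_sub, Complex.norm_real, Real.norm_eq_abs]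
    rcases j with k | k
    · simp only [thr, Sum.elim_inl]
      have h1 : r ≤ Real.exp (R + 1) * r := le_mul_of_one_le_left hr hone
      exact (hxy k).trans h1
    · simp only [thr, Sum.elim_inr]
      exact exp_lip ((le_abs_self _).trans (hx k)) ((le_abs_self _).trans (hy k)) (hxy k)
  have h1 := norm_aeval_sub_le hP (y := thc x) (z := thc y) hone
    (fun j => norm_thc_le hx j) (fun j => norm_thc_le hy j) hd (by positivity)
  rw [aeval_thc, aeval_thc, ← Complex.ofReal_sub, Complex.norm_real, Real.norm_eq_abs] at h1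
  refine h1.trans ?_
  have hE : Real.exp (R + 1) ^ (2 * (m + 1) * δ) * Real.exp (R + 1) =
      Real.exp ((2 * ((m:ℝ) + 1) * δ + 1) * (R + 1)) := by
    rw [← Real.exp_nat_mul, ← Real.exp_add]
    congr 1
    push_cast
    ring
  have e1 : ((δ + 1) ^ (2 * (m + 1)) * T' : ℝ) * ((2 * ((m + 1 : ℕ) : ℝ) * δ) *
      Real.exp (R + 1) ^ (2 * (m + 1) * δ) * (Real.exp (R + 1) * r)) =
      (((δ:ℝ) + 1) ^ (2 * (m + 1)) * T') * (2 * ((m:ℝ) + 1) * δ) *
        Real.exp ((2 * ((m:ℝ) + 1) * δ + 1) * (R + 1)) * r := by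
    rw [← hE]
    push_cast
    ring
  rw [e1]
  unfold bigL
  refine mul_le_mul_of_nonneg_right ?_ hr
  refine mul_le_mul_of_nonneg_right ?_ (Real.exp_pos _).le
  refine mul_le_mul ?_ (by linarith) (by positivity) (by positivity)
  exact mul_le_mul_of_nonneg_left hT (by positivity)

theorem main (h : S_ONE) : S_PIECE := by
  classical
  intro m δ T R ε η hR hε hε1 hη hη1 hεη Q i hQ hQQ
  obtain ⟨L, hL⟩ : ∃ L, L = bigL m δ T R := ⟨_, rfl⟩
  have hR0 : (0:ℝ) ≤ R := by linarith
  have hRpos : (0:ℝ) < R := by linarith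
  have hL1 : 1 ≤ L := hL ▸ one_le_bigL m δ T hR0
  have hLpos : 0 < L := by linarith
  rw [← hL]
  obtain ⟨r, hr⟩ : ∃ r, r = ε / L := ⟨_, rfl⟩
  have hrpos : 0 < r := by rw [hr]; positivity
  have hrε : r ≤ ε := by rw [hr]; exact div_le_self hε.le hL1
  have hr1 : r ≤ 1 := hrε.trans hε1
  have hLr : L * r = ε := by rw [hr]; field_simp
  have hTQ : (T : ℝ) ≤ (2 * (δ:ℝ) + 1) * T + 1 := by
    have : (0:ℝ) ≤ 2 * (δ:ℝ) * T := by positivity
    linarith
  have hTD : ((2 * δ * T : ℕ) : ℝ) ≤ (2 * (δ:ℝ) + 1) * T + 1 := by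
    push_cast
    have : (0:ℝ) ≤ (T:ℝ) := by positivity
    linarith
  -- the base points
  let base : ({j : Fin (m + 1) // j ≠ i} → ℤ) → Fin (m + 1) → ℝ := fun k j =>
    if hj : j ≠ i then (k ⟨j, hj⟩ : ℝ) * r else 0
  let lo : ℤ := ⌊-R / r⌋
  let hi : ℤ := ⌊R / r⌋
  let box : Finset ({j : Fin (m + 1) // j ≠ i} → ℤ) := Fintype.piFinset fun _ => Finset.Icc lo hi
  have hbase : ∀ k ∈ box, ∀ t ∈ Icc (-R) R, ∀ j, |Function.update (base k) i t j| ≤ R + 1 := by
    intro k hk t ht j
    by_cases hj : j = i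
    · subst hj
      rw [Function.update_self]
      have := abs_le.2 ht
      linarith
    · rw [Function.update_of_ne hj]
      have e : base k j = (k ⟨j, hj⟩ : ℝ) * r := dif_pos hj
      rw [e]
      have h1 := Fintype.mem_piFinset.1 hk ⟨j, hj⟩
      rw [Finset.mem_Icc] at h1
      have h2 : ((k ⟨j, hj⟩ : ℤ) : ℝ) ≤ R / r := by
        have : ((k ⟨j, hj⟩ : ℤ) : ℝ) ≤ ((hi : ℤ) : ℝ) := by exact_mod_cast h1.2
        exact this.trans (Int.floor_le _)
      have h3 : -R / r - 1 ≤ ((k ⟨j, hj⟩ : ℤ) : ℝ) := by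
        have : ((lo : ℤ) : ℝ) ≤ ((k ⟨j, hj⟩ : ℤ) : ℝ) := by exact_mod_cast h1.1
        have h4 := Int.sub_one_lt_floor (-R / r)
        linarith
      have h5 : ((k ⟨j, hj⟩ : ℤ) : ℝ) * r ≤ R := (le_div_iff₀ hrpos).1 h2
      have h6 : -R - r ≤ ((k ⟨j, hj⟩ : ℤ) : ℝ) * r := by
        have h7 := mul_le_mul_of_nonneg_right h3 hrpos.le
        have h8 : (-R / r - 1) * r = -R - r := by field_simp
        linarith
      rw [abs_le]
      constructor <;> linarith
  have key : ∀ k : {j : Fin (m + 1) // j ≠ i} → ℤ, ∃ F : Finset ℝ,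
      (F.card : ℝ) ≤ 8 * R * L / η + 1 ∧ (k ∈ box → ∀ t ∈ Icc (-R) R,
        |fQ Q (Function.update (base k) i t)| ≤ 2 * ε →
        η / 2 ≤ |fQ (D i Q) (Function.update (base k) i t)| →
        ∃ c ∈ F, |t - c| ≤ 16 * ε / η) := by
    intro k
    by_cases hk : k ∈ box
    · obtain ⟨F, hF1, hF2⟩ := h _ _ _ (fun t => hasDerivAt_fQ (base k) i Q t)
        (fun t => hasDerivAt_fQ (base k) i (D i Q) t) R L (η / 2) (2 * ε) hRpos hLpos (by positivity)
        (by positivity) (by
          intro t ht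
          refine (abs_fQ_le (by linarith : (0:ℝ) ≤ R + 1) hQQ (hbase k hk t ht)).trans ?_
          rw [hL]
          unfold bigL
          have c1 : ((δ + 1) ^ (2 * (m + 1)) * T : ℝ) ≤
              ((δ:ℝ) + 1) ^ (2 * (m + 1)) * ((2 * (δ:ℝ) + 1) * T + 1) :=
            mul_le_mul_of_nonneg_left hTQ (by positivity)
          have c2 : Real.exp (2 * ((m + 1 : ℕ) : ℝ) * (R + 1) * δ) ≤
              Real.exp ((2 * ((m:ℝ) + 1) * δ + 1) * (R + 1)) := by
            apply Real.exp_le_exp.2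
            push_cast
            nlinarith
          have c3 : (1:ℝ) ≤ 2 * ((m:ℝ) + 1) * δ + 1 := by
            have : (0:ℝ) ≤ 2 * ((m:ℝ) + 1) * δ := by positivity
            linarith
          refine mul_le_mul ?_ c2 (Real.exp_pos _).le (by positivity)
          refine c1.trans ?_
          exact le_mul_of_one_le_right (by positivity) c3)
      refine ⟨F, ?_, fun _ t ht h1 h2 => ?_⟩
      · refine hF1.trans (le_of_eq ?_)
        field_simp
        ring
      · obtain ⟨c, hc, hc2⟩ := hF2 t ht h1 h2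
        refine ⟨c, hc, hc2.trans (le_of_eq ?_)⟩
        field_simp
        ring
    · exact ⟨∅, by rw [Finset.card_empty, Nat.cast_zero]; positivity, fun hk' => absurd hk' hk⟩
  choose G hG1 hG2 using key
  refine ⟨box.biUnion fun k => (G k).image fun c => Function.update (base k) i c, ?_, ?_⟩
  · have c1 : ((box.biUnion fun k => (G k).image fun c => Function.update (base k) i c).card : ℝ) ≤
        ∑ k ∈ box, (8 * R * L / η + 1) := by
      have c2 : ((box.biUnion fun k => (G k).image fun c => Function.update (base k) i c).card : ℝ) ≤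
          ((∑ k ∈ box, ((G k).image fun c => Function.update (base k) i c).card : ℕ) : ℝ) := by
        exact_mod_cast Finset.card_biUnion_le
      refine c2.trans ?_
      rw [Nat.cast_sum]
      refine Finset.sum_le_sum fun k _ => ?_
      refine le_trans ?_ (hG1 k)
      exact_mod_cast Finset.card_image_le
    refine c1.trans ?_
    rw [Finset.sum_const, nsmul_eq_mul]
    refine mul_le_mul_of_nonneg_right ?_ (by positivity)
    have c3 : box.card = (Finset.Icc lo hi).card ^ m := by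
      show (Fintype.piFinset fun _ : {j : Fin (m + 1) // j ≠ i} => Finset.Icc lo hi).card = _
      rw [Fintype.card_piFinset, Finset.prod_const, Finset.card_univ]
      congr 1
      rw [Fintype.card_subtype_compl, Fintype.card_fin, Fintype.card_subtype_eq]
      omega
    rw [c3, Nat.cast_pow]
    refine pow_le_pow_left₀ (by positivity) ?_ m
    have c4 : ((Finset.Icc lo hi).card : ℝ) ≤ 2 * R / r + 2 := by
      rw [Int.card_Icc]
      have d1 : ((hi : ℤ) : ℝ) ≤ R / r := Int.floor_le _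
      have d2 : -R / r - 1 < ((lo : ℤ) : ℝ) := Int.sub_one_lt_floor _
      have d3 : -R / r = -(R / r) := neg_div _ _
      have d4 : 2 * R / r = R / r + R / r := by ring
      have d5 : 0 ≤ R / r := by positivity
      have d6 : lo ≤ hi + 1 := by
        have : lo ≤ hi := Int.floor_le_floor (by rw [d3]; linarith)
        omega
      have d7 : (((hi + 1 - lo).toNat : ℕ) : ℝ) = (hi : ℝ) + 1 - (lo : ℝ) := by
        have : (((hi + 1 - lo).toNat : ℕ) : ℤ) = hi + 1 - lo := Int.toNat_of_nonneg (by omega)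
        have h9 : ((((hi + 1 - lo).toNat : ℕ) : ℤ) : ℝ) = ((hi + 1 - lo : ℤ) : ℝ) := by rw [this]
        push_cast at h9
        exact h9
      rw [d7]
      linarith
    have c5 : 2 * R / r = 2 * R * L / ε := by
      rw [hr]
      field_simp
    linarith
  · intro x hx h1 h2
    let k : {j : Fin (m + 1) // j ≠ i} → ℤ := fun j => ⌊x j / r⌋
    have hk : k ∈ box := by
      refine Fintype.mem_piFinset.2 fun j => Finset.mem_Icc.2 ?_
      have h3 := abs_le.1 (hx j)
      exact ⟨Int.floor_le_floor (div_le_div_of_nonneg_right h3.1 hrpos.le),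
        Int.floor_le_floor (div_le_div_of_nonneg_right h3.2 hrpos.le)⟩
    have hit : x i ∈ Icc (-R) R := abs_le.1 (hx i)
    have hoff : ∀ j, j ≠ i → |x j - base k j| ≤ r := by
      intro j hj
      have e : base k j = ((⌊x j / r⌋ : ℤ) : ℝ) * r := dif_pos hj
      rw [e]
      have a1 : ((⌊x j / r⌋ : ℤ) : ℝ) * r ≤ x j := (le_div_iff₀ hrpos).1 (Int.floor_le _)
      have a2 : x j < (((⌊x j / r⌋ : ℤ) : ℝ) + 1) * r := (div_lt_iff₀ hrpos).1 (Int.lt_floor_add_one _)
      rw [abs_le]
      constructor <;> linarith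
    have hclose : ∀ j, |x j - Function.update (base k) i (x i) j| ≤ r := by
      intro j
      by_cases hj : j = i
      · subst hj
        rw [Function.update_self, sub_self, abs_zero]
        exact hrpos.le
      · rw [Function.update_of_ne hj]
        exact hoff j hj
    have hx1 : ∀ j, |x j| ≤ R + 1 := fun j => by linarith [hx j]
    have hb := hbase k hk (x i) hit
    have l1 := lip hR0 hrpos.le hTQ hQ hx1 hb hclose
    have l2 := lip hR0 hrpos.le hTD (hQ.D i) hx1 hb hclose
    rw [← hL, hLr] at l1 l2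
    have g1 : |fQ Q (Function.update (base k) i (x i))| ≤ 2 * ε := by
      have a1 := abs_sub_abs_le_abs_sub (fQ Q (Function.update (base k) i (x i))) (fQ Q x)
      rw [abs_sub_comm] at l1
      linarith
    have g2 : η / 2 ≤ |fQ (D i Q) (Function.update (base k) i (x i))| := by
      have a1 := abs_sub_abs_le_abs_sub (fQ (D i Q) x) (fQ (D i Q) (Function.update (base k) i (x i)))
      linarith
    obtain ⟨c, hc, hc2⟩ := hG2 k hk (x i) hit g1 g2
    refine ⟨Function.update (base k) i c, Finset.mem_biUnion.2 ⟨k, hk, Finset.mem_image.2 ⟨c, hc, rfl⟩⟩,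
      fun j => ?_⟩
    by_cases hj : j = i
    · subst hj
      rw [Function.update_self]
      exact hc2
    · rw [Function.update_of_ne hj]
      refine (hoff j hj).trans (hrε.trans ?_)
      rw [le_div_iff₀ hη]
      nlinarith

end Pool.Agent.Y549.QS.PIECE
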