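import Pool.Agent.H334R2.Main

set_option autoImplicit false

/-! Statements for project QS: the exceptional set of the quantitative Schanuel bound has Hausdorff
dimension at most `n - 1`. -/

namespace Pool.Agent.Y549.QS

open MvPolynomial MeasureTheory Set Pool.Agent.H334R2

/-- ONE: covering of the set where `g` is small and its derivative is not small. -/
def S_ONE : Prop := ∀ (g g' g'' : ℝ → ℝ), (∀ t, HasDerivAt g (g' t) t) →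
  (∀ t, HasDerivAt g' (g'' t) t) → ∀ R M2 η ε : ℝ, 0 < R → 0 < M2 → 0 < η → 0 ≤ ε →
  (∀ t ∈ Icc (-R) R, |g'' t| ≤ M2) →
  ∃ F : Finset ℝ, (F.card : ℝ) ≤ 4 * R * M2 / η + 1 ∧
    ∀ t ∈ Icc (-R) R, |g t| ≤ ε → η ≤ |g' t| → ∃ c ∈ F, |t - c| ≤ 4 * ε / η

/-- the bound `L` for the functions and their Lipschitz constants -/
noncomputable def bigL (m δ T : ℕ) (R : ℝ) : ℝ :=
  ((δ + 1 : ℝ) ^ (2 * (m + 1)) * ((2 * δ + 1) * T + 1)) * (2 * (m + 1) * δ + 1) *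
    Real.exp ((2 * (m + 1) * δ + 1) * (R + 1))

/-- PIECE: covering for one polynomial. -/
def S_PIECE : Prop := ∀ (m δ T : ℕ) (R ε η : ℝ), 1 ≤ R → 0 < ε → ε ≤ 1 → 0 < η → η ≤ 1 →
  2 * ε ≤ η → ∀ (Q : MvPolynomial (Vars (m + 1)) ℤ) (i : Fin (m + 1)), InBox (δ + 1) T Q →
  InBox (δ + 1) T (D i (D i Q)) →
  ∃ F : Finset (Fin (m + 1) → ℝ),
    (F.card : ℝ) ≤ (2 * R * bigL m δ T R / ε + 3) ^ m * (8 * R * bigL m δ T R / η + 1) ∧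
    ∀ x : Fin (m + 1) → ℝ, (∀ j, |x j| ≤ R) → |fQ Q x| ≤ ε → η ≤ |fQ (D i Q) x| →
      ∃ c ∈ F, ∀ j, |x j - c j| ≤ 16 * ε / η

/-- BADC: covering of the bad set. -/
def S_BADC : Prop := ∀ (m δ T : ℕ) (R ε η : ℝ), 1 ≤ R → 0 < ε → ε ≤ 1 → 0 < η → η ≤ 1 →
  2 * ε ≤ η →
  ∃ F : Finset (Fin (m + 1) → ℝ),
    (F.card : ℝ) ≤ ((2 * T + 1 : ℝ) ^ ((δ + 1) ^ (2 * (m + 1))) * (m + 1)) *
      ((2 * R * bigL m δ T R / ε + 3) ^ m * (8 * R * bigL m δ T R / η + 1)) ∧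
    badSet (m + 1) δ T R ε η ⊆ ⋃ c ∈ F, Metric.closedBall c (16 * ε / η)

/-- NUMB: the choice of the constant. -/
def S_NUMB : Prop := ∀ (m : ℕ) (C R κ : ℝ), 0 < C → 1 ≤ R → 0 < κ →
  ∃ c1 : ℝ, cOne m C R ≤ c1 ∧ ∀ d M : ℕ, 1 ≤ d → d ≤ M →
    ∀ δ T : ℕ, δ = deltaS (m + 1) d → T = tT C M d δ → ∀ ε η : ℝ,
    ε = Real.exp (-(c1 * (M * δ))) → η = Real.exp (-(C * (M * δ))) / 2 →
    2 * ε ≤ η ∧ 16 * ε / η ≤ Real.exp (-M) ∧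
    ((2 * T + 1 : ℝ) ^ ((δ + 1) ^ (2 * (m + 1))) * (m + 1)) *
      ((2 * R * bigL m δ T R / ε + 3) ^ m * (8 * R * bigL m δ T R / η + 1)) *
      (16 * ε / η) ^ ((m : ℝ) + κ) ≤ Real.exp (-M)

/-- LIM: Hausdorff dimension of an upper limit of sets which are covered by few small balls. -/
def S_LIM : Prop := ∀ (m : ℕ) (s : ℝ) (S : ℕ × ℕ → Set (Fin (m + 1) → ℝ)) (r : ℕ × ℕ → ℝ),
  0 ≤ s → (∀ p, 0 < r p ∧ r p ≤ Real.exp (-(p.1 + p.2 : ℝ))) →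
  (∀ p, ∃ F : Finset (Fin (m + 1) → ℝ), (F.card : ℝ) * r p ^ s ≤ Real.exp (-(p.1 + p.2 : ℝ)) ∧
    S p ⊆ ⋃ c ∈ F, Metric.closedBall c (r p)) →
  dimH {x | {p | x ∈ S p}.Infinite} ≤ ENNReal.ofReal s

/-- the bad sets with a larger constant -/
noncomputable def badC (m : ℕ) (C c1 : ℝ) (R : ℕ) (p : ℕ × ℕ) : Set (Fin (m + 1) → ℝ) :=
  badSet (m + 1) (deltaS (m + 1) (p.1 + 1))
    (tT C (p.1 + 1 + p.2) (p.1 + 1) (deltaS (m + 1) (p.1 + 1))) (R + 1 : ℕ)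
    (Real.exp (-(c1 * (((p.1 + 1 + p.2 : ℕ) : ℝ) * deltaS (m + 1) (p.1 + 1)))))
    (Real.exp (-(C * (((p.1 + 1 + p.2 : ℕ) : ℝ) * deltaS (m + 1) (p.1 + 1)))) / 2)

/-- MEM: `mem_bad` with an arbitrary large constant `c1`. -/
def S_MEM : Prop := ∀ m : ℕ, ∃ C : ℝ, 0 < C ∧ ∀ (R : ℕ) (c1 : ℝ) (_ : cOne m C (R + 1 : ℕ) ≤ c1)
    (x : Fin (m + 1) → ℝ)
    (_ : ∀ i, |x i| ≤ (R + 1 : ℕ)) (c2 : ℝ)
    (_ : c1 + (6 * (m + 1) + 2 * (m + 1) * (R + 1 : ℕ) + C) ≤ c2)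
    (α β : Fin (m + 1) → ℂ) (_ : ∀ i, IsAlgebraic ℚ (α i)) (_ : ∀ i, IsAlgebraic ℚ (β i))
    (d M : ℕ) (_ : d = Module.finrank ℚ (IntermediateField.adjoin ℚ (Set.range α ∪ Set.range β)))
    (_ : d ≤ M) (_ : ∀ i, d * absLogHeight (α i) ≤ M) (_ : ∀ i, d * absLogHeight (β i) ≤ M)
    (_ : ∀ i, ‖(x i : ℂ) - β i‖ ≤ Real.exp (-(c2 * (M * deltaS (m + 1) d))))
    (_ : ∀ i, ‖Complex.exp (x i) - α i‖ < Real.exp (-(c2 * (M * deltaS (m + 1) d)))),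
    x ∈ badC m C c1 R (d - 1, M - d)

end Pool.Agent.Y549.QS
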